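import Pool.Agent.W172.WL.Stm

set_option autoImplicit false

/-! WL-LIN (helper803): `F` is linear in the random variables. -/

open MeasureTheory Set
open scoped ENNReal NNReal

namespace Pool.Agent.W803.WL

open Pool.Agent.W172.WL

theorem lam_nonneg (x : ℝ) : 0 ≤ Lam x := le_max_left _ _

theorem lam_le (x : ℝ) : Lam x ≤ 1 := by
  unfold Lam
  refine max_le zero_le_one ?_
  rcases le_total x 1 with h | h
  · exact (min_le_left _ _).trans h
  · exact (min_le_right _ _).trans (by linarith)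

theorem lam_zero {x : ℝ} (h : x ≤ 0 ∨ 1 ≤ x) : Lam x = 0 := by
  unfold Lam
  rw [max_eq_left]
  rcases h with h | h
  · exact (min_le_left _ _).trans h
  · exact (min_le_right _ _).trans (by linarith)

theorem lam_sum (X : ℝ) (hX : 0 ≤ X) (M : ℕ) : ∑ i ∈ Finset.range M, Lam (X - i) ≤ 1 := by
  calc ∑ i ∈ Finset.range M, Lam (X - i) ≤ ∑ i ∈ Finset.range M, if i = ⌊X⌋₊ then (1 : ℝ) else 0 := by
        refine Finset.sum_le_sum fun i _ => ?_
        split_ifs with h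
        · exact lam_le _
        · apply le_of_eq
          apply lam_zero
          rcases lt_or_gt_of_ne h with h1 | h1
          · right
            have h2 : ((i + 1 : ℕ) : ℝ) ≤ X := (Nat.le_floor_iff hX).1 h1
            push_cast at h2
            linarith
          · left
            have h2 : X < i := (Nat.floor_lt hX).1 h1
            linarith
    _ ≤ 1 := by
        rw [Finset.sum_ite_eq']
        split_ifs <;> norm_num

theorem tsum_pair (b N l : ℕ) (h : Idx → ℝ) :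
    ∑' p : ℕ × ℕ, (if p.1 < b ^ l ∧ p.2 < N then h (l, p) else 0) =
      ∑ i ∈ Finset.range (b ^ l), ∑ r ∈ Finset.range N, h (l, i, r) := by
  rw [tsum_eq_sum (s := Finset.range (b ^ l) ×ˢ Finset.range N), Finset.sum_product]
  · refine Finset.sum_congr rfl fun i hi => Finset.sum_congr rfl fun r hr => ?_
    rw [Finset.mem_range] at hi hr
    rw [if_pos ⟨hi, hr⟩]
  · intro p hp
    rw [if_neg]
    intro h'
    exact hp (Finset.mem_product.2 ⟨Finset.mem_range.2 h'.1, Finset.mem_range.2 h'.2⟩)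

theorem summable_pair (b N l : ℕ) (h : Idx → ℝ) :
    Summable (fun p : ℕ × ℕ => if p.1 < b ^ l ∧ p.2 < N then h (l, p) else 0) := by
  apply summable_of_ne_finset_zero (s := Finset.range (b ^ l) ×ˢ Finset.range N)
  intro p hp
  rw [if_neg]
  intro h'
  exact hp (Finset.mem_product.2 ⟨Finset.mem_range.2 h'.1, Finset.mem_range.2 h'.2⟩)

theorem tsum_idx (b N : ℕ) (h : Idx → ℝ)
    (hs : Summable (fun j : Idx => if j.2.1 < b ^ j.1 ∧ j.2.2 < N then h j else 0)) :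
    ∑' j : Idx, (if j.2.1 < b ^ j.1 ∧ j.2.2 < N then h j else 0) =
      ∑' l : ℕ, ∑ i ∈ Finset.range (b ^ l), ∑ r ∈ Finset.range N, h (l, i, r) := by
  rw [hs.tsum_prod]
  refine tsum_congr fun l => ?_
  exact tsum_pair b N l h

section
variable (b : ℕ) (α : ℝ) (N n z : ℕ) (u : ℝ)

/-- the terms of the double series -/
noncomputable def Gt (k : ℕ) (j : Idx) : ℝ :=
  if j.2.1 < b ^ j.1 ∧ j.2.2 < N then (b : ℝ) ^ (α * ((n : ℝ) - k)) * (wt b α j.1 *
    Lam ((b : ℝ) ^ j.1 * Int.fract ((b : ℝ) ^ k * ((z + u) / (b : ℝ) ^ n)) - j.2.1)) else 0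

theorem wt_nonneg (l : ℕ) : 0 ≤ wt b α l := Real.rpow_nonneg (Nat.cast_nonneg b) _

theorem Gt_nonneg (k : ℕ) (j : Idx) : 0 ≤ Gt b α N n z u k j := by
  unfold Gt
  split_ifs
  · exact mul_nonneg (Real.rpow_nonneg (Nat.cast_nonneg b) _)
      (mul_nonneg (wt_nonneg b α _) (lam_nonneg _))
  · exact le_rfl

theorem summable_wt (hb : 2 ≤ b) (hα : α < 1) : Summable (wt b α) := by
  have hb1 : (1 : ℝ) < b := by exact_mod_cast (by omega : 1 < b)
  have hb0 : (0 : ℝ) < b := by linarith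
  have h1 : wt b α = fun l : ℕ => ((b : ℝ) ^ (-(1 + et α))) ^ l := by
    funext l
    unfold wt
    rw [← Real.rpow_natCast, ← Real.rpow_mul hb0.le]
    congr 1
    ring
  rw [h1]
  apply summable_geometric_of_lt_one (Real.rpow_nonneg hb0.le _)
  apply Real.rpow_lt_one_of_one_lt_of_neg hb1
  unfold et
  linarith

theorem summable_geo (hb : 2 ≤ b) (hα : 0 < α) :
    Summable (fun k : ℕ => (b : ℝ) ^ (α * ((n : ℝ) - k))) := by
  have hb1 : (1 : ℝ) < b := by exact_mod_cast (by omega : 1 < b)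
  have hb0 : (0 : ℝ) < b := by linarith
  have h1 : (fun k : ℕ => (b : ℝ) ^ (α * ((n : ℝ) - k))) =
      fun k : ℕ => (b : ℝ) ^ (α * n) * ((b : ℝ) ^ (-α)) ^ k := by
    funext k
    rw [← Real.rpow_natCast, ← Real.rpow_mul hb0.le, ← Real.rpow_add hb0]
    congr 1
    ring
  rw [h1]
  apply Summable.mul_left
  apply summable_geometric_of_lt_one (Real.rpow_nonneg hb0.le _)
  exact Real.rpow_lt_one_of_one_lt_of_neg hb1 (by linarith)

theorem inner_le (k l : ℕ) :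
    ∑ i ∈ Finset.range (b ^ l), ∑ _r ∈ Finset.range N, (b : ℝ) ^ (α * ((n : ℝ) - k)) * (wt b α l *
      Lam ((b : ℝ) ^ l * Int.fract ((b : ℝ) ^ k * ((z + u) / (b : ℝ) ^ n)) - i)) ≤
      (b : ℝ) ^ (α * ((n : ℝ) - k)) * N * wt b α l := by
  have h0 : (0 : ℝ) ≤ (b : ℝ) ^ l * Int.fract ((b : ℝ) ^ k * ((z + u) / (b : ℝ) ^ n)) :=
    mul_nonneg (by positivity) (Int.fract_nonneg _)
  have h1 := lam_sum _ h0 (b ^ l)
  have h2 : 0 ≤ (b : ℝ) ^ (α * ((n : ℝ) - k)) * N * wt b α l :=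
    mul_nonneg (mul_nonneg (Real.rpow_nonneg (Nat.cast_nonneg b) _) (Nat.cast_nonneg N))
      (wt_nonneg b α l)
  calc ∑ i ∈ Finset.range (b ^ l), ∑ _r ∈ Finset.range N, (b : ℝ) ^ (α * ((n : ℝ) - k)) * (wt b α l *
        Lam ((b : ℝ) ^ l * Int.fract ((b : ℝ) ^ k * ((z + u) / (b : ℝ) ^ n)) - i))
      = ((b : ℝ) ^ (α * ((n : ℝ) - k)) * N * wt b α l) * ∑ i ∈ Finset.range (b ^ l),
        Lam ((b : ℝ) ^ l * Int.fract ((b : ℝ) ^ k * ((z + u) / (b : ℝ) ^ n)) - i) := by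
        rw [Finset.mul_sum]
        refine Finset.sum_congr rfl fun i _ => ?_
        rw [Finset.sum_const, Finset.card_range, nsmul_eq_mul]
        ring
    _ ≤ ((b : ℝ) ^ (α * ((n : ℝ) - k)) * N * wt b α l) * 1 := mul_le_mul_of_nonneg_left h1 h2
    _ = _ := mul_one _

theorem inner_nonneg (k l : ℕ) :
    0 ≤ ∑ i ∈ Finset.range (b ^ l), ∑ _r ∈ Finset.range N, (b : ℝ) ^ (α * ((n : ℝ) - k)) *
      (wt b α l * Lam ((b : ℝ) ^ l * Int.fract ((b : ℝ) ^ k * ((z + u) / (b : ℝ) ^ n)) - i)) :=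
  Finset.sum_nonneg fun _ _ => Finset.sum_nonneg fun _ _ =>
    mul_nonneg (Real.rpow_nonneg (Nat.cast_nonneg b) _)
      (mul_nonneg (wt_nonneg b α _) (lam_nonneg _))

theorem summable_Gt_row (hb : 2 ≤ b) (hα : α < 1) (k : ℕ) :
    Summable (Gt b α N n z u k) := by
  rw [summable_prod_of_nonneg (Gt_nonneg b α N n z u k)]
  refine ⟨fun l => ?_, ?_⟩
  · exact summable_pair b N l (fun j => (b : ℝ) ^ (α * ((n : ℝ) - k)) * (wt b α j.1 *
      Lam ((b : ℝ) ^ j.1 * Int.fract ((b : ℝ) ^ k * ((z + u) / (b : ℝ) ^ n)) - j.2.1)))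
  · have h1 : (fun l => ∑' p, Gt b α N n z u k (l, p)) = fun l => ∑ i ∈ Finset.range (b ^ l),
        ∑ _r ∈ Finset.range N, (b : ℝ) ^ (α * ((n : ℝ) - k)) * (wt b α l *
        Lam ((b : ℝ) ^ l * Int.fract ((b : ℝ) ^ k * ((z + u) / (b : ℝ) ^ n)) - i)) := by
      funext l
      exact tsum_pair b N l (fun j => (b : ℝ) ^ (α * ((n : ℝ) - k)) * (wt b α j.1 *
        Lam ((b : ℝ) ^ j.1 * Int.fract ((b : ℝ) ^ k * ((z + u) / (b : ℝ) ^ n)) - j.2.1)))
    rw [h1]
    exact Summable.of_nonneg_of_le (inner_nonneg b α N n z u k) (inner_le b α N n z u k)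
      ((summable_wt b α hb hα).mul_left _)

theorem tsum_Gt_row_le (hb : 2 ≤ b) (hα : α < 1) (k : ℕ) :
    ∑' j, Gt b α N n z u k j ≤ (b : ℝ) ^ (α * ((n : ℝ) - k)) * (N * ∑' l, wt b α l) := by
  have h0 := tsum_idx b N (fun j => (b : ℝ) ^ (α * ((n : ℝ) - k)) * (wt b α j.1 *
      Lam ((b : ℝ) ^ j.1 * Int.fract ((b : ℝ) ^ k * ((z + u) / (b : ℝ) ^ n)) - j.2.1)))
      (summable_Gt_row b α N n z u hb hα k)
  have h1 : ∑' j, Gt b α N n z u k j = ∑' l : ℕ, ∑ i ∈ Finset.range (b ^ l),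
      ∑ _r ∈ Finset.range N, (b : ℝ) ^ (α * ((n : ℝ) - k)) * (wt b α l *
        Lam ((b : ℝ) ^ l * Int.fract ((b : ℝ) ^ k * ((z + u) / (b : ℝ) ^ n)) - i)) := h0
  rw [h1]
  have hs2 : Summable (fun l => (b : ℝ) ^ (α * ((n : ℝ) - k)) * N * wt b α l) :=
    (summable_wt b α hb hα).mul_left _
  have hs1 : Summable (fun l : ℕ => ∑ i ∈ Finset.range (b ^ l),
      ∑ _r ∈ Finset.range N, (b : ℝ) ^ (α * ((n : ℝ) - k)) * (wt b α l *
        Lam ((b : ℝ) ^ l * Int.fract ((b : ℝ) ^ k * ((z + u) / (b : ℝ) ^ n)) - i))) :=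
    Summable.of_nonneg_of_le (inner_nonneg b α N n z u k) (inner_le b α N n z u k) hs2
  refine (hs1.tsum_le_tsum (inner_le b α N n z u k) hs2).trans (le_of_eq ?_)
  rw [tsum_mul_left]
  ring

theorem summable_Gt (hb : 2 ≤ b) (hα0 : 0 < α) (hα : α < 1) :
    Summable (fun q : ℕ × Idx => Gt b α N n z u q.1 q.2) := by
  rw [summable_prod_of_nonneg (fun q => Gt_nonneg b α N n z u q.1 q.2)]
  refine ⟨fun k => summable_Gt_row b α N n z u hb hα k, ?_⟩
  refine Summable.of_nonneg_of_le (fun k => tsum_nonneg fun j => Gt_nonneg b α N n z u k j)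
    (fun k => tsum_Gt_row_le b α N n z u hb hα k) ?_
  exact (summable_geo b α n hb hα0).mul_right _

theorem tsum_Gt_col (j : Idx) : ∑' k, Gt b α N n z u k j = cf b α N n z u j := by
  unfold Gt cf
  split_ifs with h
  · unfold Bc
    rw [← tsum_mul_left]
    refine tsum_congr fun k => ?_
    ring
  · exact tsum_zero

end

theorem lin : S_LIN := by
  intro b α N n z hb hα0 hα1 g hg u
  have hb1 : (1 : ℝ) < b := by exact_mod_cast (by omega : 1 < b)
  have hb0 : (0 : ℝ) < b := by linarith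
  have hG := summable_Gt b α N n z u hb hα0 hα1
  have hG' : Summable (fun q : Idx × ℕ => Gt b α N n z u q.2 q.1) :=
    Summable.prod_symm (f := fun q : ℕ × Idx => Gt b α N n z u q.1 q.2) hG
  have hcf0 : ∀ j, 0 ≤ cf b α N n z u j := fun j => by
    rw [← tsum_Gt_col]
    exact tsum_nonneg fun k => Gt_nonneg b α N n z u k j
  have hcf : Summable (cf b α N n z u) := by
    have := hG'.prod
    simp only [tsum_Gt_col] at this
    exact this
  refine ⟨?_, fun ω => ?_⟩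
  · simp only [abs_of_nonneg (hcf0 _)]
    exact hcf
  -- the double series with the random variables
  set x0 : ℝ := (z + u) / (b : ℝ) ^ n with hx0
  have hω0 : ∀ j, (0 : ℝ) ≤ ω j := fun j => (ω j).2.1
  have hω1 : ∀ j, (ω j : ℝ) ≤ 1 := fun j => (ω j).2.2
  have hH : Summable (fun q : ℕ × Idx => Gt b α N n z u q.1 q.2 * (ω q.2 : ℝ)) :=
    Summable.of_nonneg_of_le
      (fun q => mul_nonneg (Gt_nonneg b α N n z u q.1 q.2) (hω0 q.2))
      (fun q => mul_le_of_le_one_right (Gt_nonneg b α N n z u q.1 q.2) (hω1 q.2)) hG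
  have hrow : ∀ k : ℕ, ∑' j, Gt b α N n z u k j * (ω j : ℝ) =
      (b : ℝ) ^ (α * ((n : ℝ) - k)) * Phi b α N ω ((b : ℝ) ^ k * x0) := by
    intro k
    have hs : Summable (fun j : Idx => if j.2.1 < b ^ j.1 ∧ j.2.2 < N then
        (b : ℝ) ^ (α * ((n : ℝ) - k)) * (wt b α j.1 *
        Lam ((b : ℝ) ^ j.1 * Int.fract ((b : ℝ) ^ k * x0) - j.2.1)) * (ω j : ℝ) else 0) := by
      have hHk : Summable (fun j : Idx => Gt b α N n z u k j * (ω j : ℝ)) := hH.prod_factor k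
      have hfun : (fun j : Idx => Gt b α N n z u k j * (ω j : ℝ)) =
          fun j : Idx => if j.2.1 < b ^ j.1 ∧ j.2.2 < N then
        (b : ℝ) ^ (α * ((n : ℝ) - k)) * (wt b α j.1 *
        Lam ((b : ℝ) ^ j.1 * Int.fract ((b : ℝ) ^ k * x0) - j.2.1)) * (ω j : ℝ) else 0 := by
        funext j
        unfold Gt
        split_ifs
        · rfl
        · rw [zero_mul]
      rw [← hfun]
      exact hHk
    have h1 := tsum_idx b N (fun j => (b : ℝ) ^ (α * ((n : ℝ) - k)) * (wt b α j.1 *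
        Lam ((b : ℝ) ^ j.1 * Int.fract ((b : ℝ) ^ k * x0) - j.2.1)) * (ω j : ℝ)) hs
    have h2 : ∑' j, Gt b α N n z u k j * (ω j : ℝ) = ∑' j : Idx,
        (if j.2.1 < b ^ j.1 ∧ j.2.2 < N then
        (b : ℝ) ^ (α * ((n : ℝ) - k)) * (wt b α j.1 *
        Lam ((b : ℝ) ^ j.1 * Int.fract ((b : ℝ) ^ k * x0) - j.2.1)) * (ω j : ℝ) else 0) := by
      refine tsum_congr fun j => ?_
      unfold Gt
      split_ifs
      · rfl
      · rw [zero_mul]
    rw [h2, h1]
    unfold Phi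
    rw [← tsum_mul_left]
    refine tsum_congr fun l => ?_
    rw [Finset.mul_sum, Finset.mul_sum]
    refine Finset.sum_congr rfl fun i _ => ?_
    rw [Finset.sum_mul, Finset.mul_sum, Finset.mul_sum]
    refine Finset.sum_congr rfl fun r _ => ?_
    simp only
    ring
  have hpow : ∀ k : ℕ, (b : ℝ) ^ (α * n) * (b : ℝ) ^ (-(α * k)) = (b : ℝ) ^ (α * ((n : ℝ) - k)) := by
    intro k
    rw [← Real.rpow_add hb0]
    congr 1
    ring
  have hPhi : Summable (fun k : ℕ => (b : ℝ) ^ (α * ((n : ℝ) - k)) *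
      Phi b α N ω ((b : ℝ) ^ k * x0)) := by
    have hHp : Summable (fun k : ℕ => ∑' j, Gt b α N n z u k j * (ω j : ℝ)) := hH.prod
    have hfun : (fun k : ℕ => ∑' j, Gt b α N n z u k j * (ω j : ℝ)) =
        fun k : ℕ => (b : ℝ) ^ (α * ((n : ℝ) - k)) * Phi b α N ω ((b : ℝ) ^ k * x0) :=
      funext hrow
    rw [← hfun]
    exact hHp
  have hg1 : Summable (fun k : ℕ => (b : ℝ) ^ (α * ((n : ℝ) - k)) * g ((b : ℝ) ^ k * x0)) := by
    obtain ⟨M, hM⟩ := hg.bdd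
    refine Summable.of_norm_bounded ((summable_geo b α n hb hα0).mul_right M) fun k => ?_
    rw [norm_mul, Real.norm_eq_abs, Real.norm_eq_abs,
      abs_of_nonneg (Real.rpow_nonneg hb0.le _)]
    exact mul_le_mul_of_nonneg_left (hM _) (Real.rpow_nonneg hb0.le _)
  have hF : ∀ f : ℝ → ℝ, F b α f n z u = ∑' k : ℕ, (b : ℝ) ^ (α * ((n : ℝ) - k)) *
      f ((b : ℝ) ^ k * x0) := by
    intro f
    unfold F W
    rw [← tsum_mul_left]
    refine tsum_congr fun k => ?_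
    rw [← mul_assoc, hpow]
  rw [hF, hF]
  have h1 : ∑' k : ℕ, (b : ℝ) ^ (α * ((n : ℝ) - k)) *
      (g ((b : ℝ) ^ k * x0) + Phi b α N ω ((b : ℝ) ^ k * x0)) =
      ∑' k : ℕ, (b : ℝ) ^ (α * ((n : ℝ) - k)) * g ((b : ℝ) ^ k * x0) +
      ∑' k : ℕ, (b : ℝ) ^ (α * ((n : ℝ) - k)) * Phi b α N ω ((b : ℝ) ^ k * x0) := by
    rw [← hg1.tsum_add hPhi]
    refine tsum_congr fun k => ?_
    ring
  rw [h1]
  congr 1
  have h2 : ∑' k : ℕ, (b : ℝ) ^ (α * ((n : ℝ) - k)) * Phi b α N ω ((b : ℝ) ^ k * x0) =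
      ∑' k : ℕ, ∑' j, Gt b α N n z u k j * (ω j : ℝ) := tsum_congr fun k => (hrow k).symm
  have h3 : ∑' k : ℕ, ∑' j, Gt b α N n z u k j * (ω j : ℝ) =
      ∑' j : Idx, ∑' k : ℕ, Gt b α N n z u k j * (ω j : ℝ) :=
    (Summable.tsum_comm (f := fun (k : ℕ) (j : Idx) => Gt b α N n z u k j * (ω j : ℝ)) hH).symm
  rw [h2, h3]
  refine tsum_congr fun j => ?_
  rw [tsum_mul_right, tsum_Gt_col]

end Pool.Agent.W803.WL
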