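import Pool.Agent.W172.WL.Stm

set_option autoImplicit false

/-! WL-BOX (helper803): volume of a set of points with prescribed first digits. -/

open MeasureTheory Set
open scoped ENNReal NNReal

namespace Pool.Agent.W803.WL

open Pool.Agent.W172.WL

theorem floor_step (b : ℕ) (hb : 2 ≤ b) (s : ℕ) (t : ℝ) :
    ⌊(b : ℝ) ^ (s + 1) * t⌋₊ / b = ⌊(b : ℝ) ^ s * t⌋₊ := by
  rw [← Nat.floor_div_natCast]
  congr 1
  have : (b : ℝ) ≠ 0 := by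
    have : b ≠ 0 := by omega
    exact_mod_cast this
  rw [pow_succ]
  field_simp

theorem floor_eq (b N : ℕ) (hb : 2 ≤ b) (y : Fin N → Fin b) (t t1 : ℝ) (ht : t ∈ Ico (0 : ℝ) 1)
    (ht1 : t1 ∈ Ico (0 : ℝ) 1) (h : ∀ s : Fin N, ⌊(b : ℝ) ^ ((s : ℕ) + 1) * t⌋₊ % b = (y s : ℕ))
    (h1 : ∀ s : Fin N, ⌊(b : ℝ) ^ ((s : ℕ) + 1) * t1⌋₊ % b = (y s : ℕ)) :
    ∀ s : ℕ, s ≤ N → ⌊(b : ℝ) ^ s * t⌋₊ = ⌊(b : ℝ) ^ s * t1⌋₊ := by
  intro s
  induction s with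
  | zero =>
    intro _
    rw [pow_zero, one_mul, one_mul, Nat.floor_eq_zero.2 ht.2, Nat.floor_eq_zero.2 ht1.2]
  | succ s ih =>
    intro hs
    have e1 := ih (by omega)
    have e2 := floor_step b hb s t
    have e3 := floor_step b hb s t1
    have e4 := h ⟨s, by omega⟩
    have e5 := h1 ⟨s, by omega⟩
    simp only at e4 e5
    rw [← Nat.div_add_mod ⌊(b : ℝ) ^ (s + 1) * t⌋₊ b, ← Nat.div_add_mod ⌊(b : ℝ) ^ (s + 1) * t1⌋₊ b,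
      e2, e3, e1, e4, e5]

theorem vol_one (b N : ℕ) (hb : 2 ≤ b) (y : Fin N → Fin b) :
    volume {t : ℝ | t ∈ Ico (0 : ℝ) 1 ∧
      ∀ s : Fin N, ⌊(b : ℝ) ^ ((s : ℕ) + 1) * t⌋₊ % b = (y s : ℕ)} ≤
      ENNReal.ofReal (((b : ℝ) ^ N)⁻¹) := by
  have hb0 : (0 : ℝ) < b := by
    have : 0 < b := by omega
    exact_mod_cast this
  have hbN : (0 : ℝ) < (b : ℝ) ^ N := by positivity
  rcases Set.eq_empty_or_nonempty {t : ℝ | t ∈ Ico (0 : ℝ) 1 ∧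
      ∀ s : Fin N, ⌊(b : ℝ) ^ ((s : ℕ) + 1) * t⌋₊ % b = (y s : ℕ)} with h | ⟨t1, ht1, h1⟩
  · rw [h, measure_empty]
    exact zero_le
  · set m := ⌊(b : ℝ) ^ N * t1⌋₊ with hm
    have hsub : {t : ℝ | t ∈ Ico (0 : ℝ) 1 ∧
        ∀ s : Fin N, ⌊(b : ℝ) ^ ((s : ℕ) + 1) * t⌋₊ % b = (y s : ℕ)} ⊆
        Ico ((m : ℝ) / (b : ℝ) ^ N) (((m : ℝ) + 1) / (b : ℝ) ^ N) := by
      rintro t ⟨ht, h⟩
      have e1 := floor_eq b N hb y t t1 ht ht1 h h1 N le_rfl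
      rw [← hm] at e1
      have h0 : 0 ≤ (b : ℝ) ^ N * t := mul_nonneg hbN.le ht.1
      constructor
      · rw [div_le_iff₀ hbN, ← e1, mul_comm t]
        exact Nat.floor_le h0
      · rw [lt_div_iff₀ hbN, ← e1, mul_comm t]
        exact Nat.lt_floor_add_one _
    refine (measure_mono hsub).trans (le_of_eq ?_)
    rw [Real.volume_Ico]
    congr 1
    field_simp
    ring

theorem box : S_BOX := by
  intro b P N hb A
  have hb0 : (0 : ℝ) < b := by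
    have : 0 < b := by omega
    exact_mod_cast this
  have hset : {u : Fin P → ℝ | (∀ a, u a ∈ Ico (0:ℝ) 1) ∧ ∃ x ∈ A, ∀ (a : Fin P) (s : Fin N),
      ⌊(b : ℝ) ^ ((s : ℕ) + 1) * u a⌋₊ % b = (x (a, s) : ℕ)} ⊆
      ⋃ x ∈ A, Set.pi univ (fun a : Fin P => {t : ℝ | t ∈ Ico (0 : ℝ) 1 ∧
        ∀ s : Fin N, ⌊(b : ℝ) ^ ((s : ℕ) + 1) * t⌋₊ % b = (x (a, s) : ℕ)}) := by
    rintro u ⟨h1, x, hx, h2⟩
    simp only [Set.mem_iUnion]
    exact ⟨x, hx, fun a _ => ⟨h1 a, h2 a⟩⟩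
  refine (measure_mono hset).trans ?_
  refine (measure_biUnion_finset_le A _).trans ?_
  have hone : ∀ x : Fin P × Fin N → Fin b, volume (Set.pi univ (fun a : Fin P =>
      {t : ℝ | t ∈ Ico (0 : ℝ) 1 ∧
        ∀ s : Fin N, ⌊(b : ℝ) ^ ((s : ℕ) + 1) * t⌋₊ % b = (x (a, s) : ℕ)})) ≤
      ENNReal.ofReal ((b : ℝ) ^ (-((P : ℝ) * N))) := by
    intro x
    rw [volume_pi_pi]
    calc ∏ a : Fin P, volume {t : ℝ | t ∈ Ico (0 : ℝ) 1 ∧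
          ∀ s : Fin N, ⌊(b : ℝ) ^ ((s : ℕ) + 1) * t⌋₊ % b = (x (a, s) : ℕ)}
        ≤ ∏ _a : Fin P, ENNReal.ofReal (((b : ℝ) ^ N)⁻¹) :=
          Finset.prod_le_prod' fun a _ => vol_one b N hb (fun s => x (a, s))
      _ = ENNReal.ofReal (((b : ℝ) ^ N)⁻¹) ^ P := by
          rw [Finset.prod_const, Finset.card_univ, Fintype.card_fin]
      _ = ENNReal.ofReal ((b : ℝ) ^ (-((P : ℝ) * N))) := by
          rw [← ENNReal.ofReal_pow (by positivity)]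
          congr 1
          rw [Real.rpow_neg hb0.le, inv_pow, ← pow_mul, mul_comm N P]
          congr 1
          rw [← Real.rpow_natCast]
          push_cast
          rfl
  calc ∑ x ∈ A, volume (Set.pi univ (fun a : Fin P =>
        {t : ℝ | t ∈ Ico (0 : ℝ) 1 ∧
          ∀ s : Fin N, ⌊(b : ℝ) ^ ((s : ℕ) + 1) * t⌋₊ % b = (x (a, s) : ℕ)}))
      ≤ ∑ _x ∈ A, ENNReal.ofReal ((b : ℝ) ^ (-((P : ℝ) * N))) :=
        Finset.sum_le_sum fun x _ => hone x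
    _ = _ := by rw [Finset.sum_const, nsmul_eq_mul]

end Pool.Agent.W803.WL
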